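import Mathlib.MeasureTheory.Integral.Bochner.Basic
import Mathlib.Analysis.InnerProductSpace.Basic

/-!
Distance energy on the flat torus: definitions.
-/

set_option autoImplicit false

namespace Pool.Agent.MP_ae59d5_an

open MeasureTheory

/-- The flat torus `ℝ² / ℤ²`, as a product of two circles `ℝ / ℤ`. -/
abbrev T2 : Type := UnitAddCircle × UnitAddCircle

/-- The flat (quotient Euclidean) distance; the norm on `ℝ / ℤ` is the distance to the nearest
integer. -/
noncomputable def rho (x y : T2) : ℝ := Real.sqrt (‖x.1 - y.1‖ ^ 2 + ‖x.2 - y.2‖ ^ 2)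

/-- The energy `I_α(μ) = ∬ ρ(x,y)^α dμ(x) dμ(y)`. -/
noncomputable def energy (α : ℝ) (μ : Measure T2) : ℝ := ∫ x, ∫ y, rho x y ^ α ∂μ ∂μ

/-- `μ` is a probability measure with the largest energy among all probability measures. -/
def IsMaximizer (α : ℝ) (μ : Measure T2) : Prop :=
  IsProbabilityMeasure μ ∧ ∀ ν : Measure T2, IsProbabilityMeasure ν → energy α ν ≤ energy α μ

/-- The class of `1/2` in `ℝ / ℤ`. -/
noncomputable def half : UnitAddCircle := ((1 / 2 : ℝ) : UnitAddCircle)

/-- `ν_p = (δ_p + δ_{p + (1/2,1/2)}) / 2`. -/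
noncomputable def nu (p : T2) : Measure T2 :=
  (1 / 2 : ENNReal) • (Measure.dirac p + Measure.dirac (p + (half, half)))

/-- The uniform measure on the four points `p + {0, 1/2}²`. -/
noncomputable def eta (p : T2) : Measure T2 :=
  (1 / 4 : ENNReal) • (Measure.dirac p + Measure.dirac (p + (half, 0)) +
    Measure.dirac (p + (0, half)) + Measure.dirac (p + (half, half)))

end Pool.Agent.MP_ae59d5_an
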