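import Mathlib.Algebra.Order.Star.Real
import Mathlib.Algebra.Ring.IsFormallyReal
import Mathlib.MeasureTheory.Integral.Prod
import Mathlib.MeasureTheory.Group.Integral
import Mathlib.MeasureTheory.Group.AddCircle
import Mathlib.Topology.Separation.CompletelyRegular
import Pool.Agent.MP_ae59d5_an.Defs

-- ======== part 0: formerly Pool.Agent.MP_ae59d5_an.Circle
section MrgPart0

/-!
Elementary facts on the circle `ℝ / ℤ`.
-/

set_option autoImplicit false

namespace Pool.Agent.MP_ae59d5_an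

open MeasureTheory Metric Set

instance : IsProbabilityMeasure (volume : Measure UnitAddCircle) := ⟨UnitAddCircle.measure_univ⟩

theorem norm_coe_of_le {r : ℝ} (h : |r| ≤ 1 / 2) : ‖(r : UnitAddCircle)‖ = |r| :=
  (AddCircle.norm_coe_eq_abs_iff (1 : ℝ) one_ne_zero).2 (by simpa using h)

theorem exists_rep (x : UnitAddCircle) : ∃ r : ℝ, |r| ≤ 1 / 2 ∧ (r : UnitAddCircle) = x := by
  obtain ⟨a, rfl⟩ := QuotientAddGroup.mk_surjective x
  refine ⟨a - round a, abs_sub_round a, ?_⟩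
  rw [AddCircle.coe_sub]
  have : (((round a : ℤ) : ℝ) : UnitAddCircle) = 0 := by
    rw [AddCircle.coe_eq_zero_iff]
    exact ⟨round a, by simp⟩
  rw [this, sub_zero]

theorem norm_le_half (x : UnitAddCircle) : ‖x‖ ≤ 1 / 2 := by
  obtain ⟨r, h, rfl⟩ := exists_rep x
  rwa [norm_coe_of_le h]

theorem coe_one_eq : ((1 : ℝ) : UnitAddCircle) = 0 := AddCircle.coe_period 1

theorem half_add_half : half + half = 0 := by
  unfold half
  rw [← AddCircle.coe_add, add_halves, coe_one_eq]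

theorem neg_half : -half = half := neg_eq_of_add_eq_zero_left half_add_half

theorem norm_half : ‖half‖ = 1 / 2 := by
  unfold half
  rw [norm_coe_of_le (by norm_num [abs_of_pos])]
  norm_num [abs_of_pos]

theorem half_ne_zero : half ≠ 0 := by
  intro h
  have := norm_half
  rw [h, norm_zero] at this
  norm_num at this

theorem norm_add_half (x : UnitAddCircle) : ‖x + half‖ = 1 / 2 - ‖x‖ := by
  obtain ⟨r, h, rfl⟩ := exists_rep x
  rw [norm_coe_of_le h]
  have h' := abs_le.1 h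
  rcases le_total r 0 with h0 | h0
  · unfold half
    rw [← AddCircle.coe_add, norm_coe_of_le (abs_le.2 ⟨by linarith, by linarith⟩),
      abs_of_nonneg (by linarith), abs_of_nonpos h0]
    ring
  · rw [← neg_half]
    unfold half
    rw [← AddCircle.coe_neg, ← AddCircle.coe_add,
      norm_coe_of_le (abs_le.2 ⟨by linarith, by linarith⟩),
      abs_of_nonpos (by linarith), abs_of_nonneg h0]
    ring

theorem eq_half_of_norm {x : UnitAddCircle} (h : ‖x‖ = 1 / 2) : x = half := by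
  have := norm_add_half x
  rw [h, sub_self, norm_eq_zero] at this
  rw [eq_neg_of_add_eq_zero_left this, neg_half]

theorem ball_inter_ball {r : ℝ} (h0 : 0 ≤ r) (h1 : r ≤ 1 / 2) :
    ball (0 : UnitAddCircle) (1 / 4) ∩ ball (r : UnitAddCircle) (1 / 4)
      = ball ((r / 2 : ℝ) : UnitAddCircle) (1 / 4 - r / 2) := by
  have hn : ‖((r / 2 : ℝ) : UnitAddCircle)‖ = r / 2 := by
    rw [norm_coe_of_le (abs_le.2 ⟨by linarith, by linarith⟩), abs_of_nonneg (by linarith)]
  ext θ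
  simp only [mem_inter_iff, mem_ball, dist_eq_norm, sub_zero]
  constructor
  · rintro ⟨a1, a2⟩
    obtain ⟨a, h, rfl⟩ := exists_rep θ
    rw [norm_coe_of_le h] at a1
    have a3 := abs_lt.1 a1
    rw [← AddCircle.coe_sub] at a2 ⊢
    have a4 : |a - r| < 1 / 4 := by
      by_cases hc : -(1 / 2) ≤ a - r
      · rwa [norm_coe_of_le (abs_le.2 ⟨hc, by linarith⟩)] at a2
      · have e : ((a - r : ℝ) : UnitAddCircle) = ((a - r + 1 : ℝ) : UnitAddCircle) := by
          rw [AddCircle.coe_add, coe_one_eq, add_zero]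
        rw [e, norm_coe_of_le (abs_le.2 ⟨by linarith, by linarith⟩),
          abs_of_nonneg (by linarith)] at a2
        linarith
    have a5 := abs_lt.1 a4
    rw [norm_coe_of_le (abs_le.2 ⟨by linarith, by linarith⟩)]
    exact abs_lt.2 ⟨by linarith, by linarith⟩
  · intro h
    constructor
    · have := norm_add_le (θ - ((r / 2 : ℝ) : UnitAddCircle)) ((r / 2 : ℝ) : UnitAddCircle)
      rw [sub_add_cancel, hn] at this
      linarith
    · have := norm_sub_le (θ - ((r / 2 : ℝ) : UnitAddCircle)) ((r / 2 : ℝ) : UnitAddCircle)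
      rw [sub_sub, ← AddCircle.coe_add, add_halves, hn] at this
      linarith

theorem real_volume_ball (x : UnitAddCircle) {ε : ℝ} (h0 : 0 ≤ ε) (h1 : ε ≤ 1 / 2) :
    (volume : Measure UnitAddCircle).real (ball x ε) = 2 * ε := by
  rw [← measureReal_congr AddCircle.closedBall_ae_eq_ball, Measure.real,
    AddCircle.volume_closedBall, min_eq_right (by linarith), ENNReal.toReal_ofReal (by linarith)]

theorem real_volume_inter (v : UnitAddCircle) :
    (volume : Measure UnitAddCircle).real (ball 0 (1 / 4) ∩ ball v (1 / 4)) = 1 / 2 - ‖v‖ := by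
  have key : ∀ r : ℝ, 0 ≤ r → r ≤ 1 / 2 → (volume : Measure UnitAddCircle).real
      (ball 0 (1 / 4) ∩ ball (r : UnitAddCircle) (1 / 4)) = 1 / 2 - r := by
    intro r h0 h1
    rw [ball_inter_ball h0 h1, real_volume_ball _ (by linarith) (by linarith)]
    ring
  obtain ⟨r, h, rfl⟩ := exists_rep v
  rw [norm_coe_of_le h]
  have h' := abs_le.1 h
  rcases le_total 0 r with h0 | h0
  · rw [key r h0 h'.2, abs_of_nonneg h0]
  · rw [abs_of_nonpos h0, ← key (-r) (by linarith) (by linarith)]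
    have : ball (0 : UnitAddCircle) (1 / 4) ∩ ball (r : UnitAddCircle) (1 / 4)
        = (fun θ => θ + ((-r : ℝ) : UnitAddCircle)) ⁻¹'
          (ball 0 (1 / 4) ∩ ball ((-r : ℝ) : UnitAddCircle) (1 / 4)) := by
      ext θ
      simp only [mem_inter_iff, mem_ball, dist_eq_norm, sub_zero, mem_preimage,
        add_sub_cancel_right, AddCircle.coe_neg, ← sub_eq_add_neg]
      simp [and_comm]
    rw [this, Measure.real, measure_preimage_add_right]
    rfl

/-- The centred square wave. -/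
noncomputable def sqw (θ : UnitAddCircle) : ℝ :=
  (ball (0 : UnitAddCircle) (1 / 4)).indicator (fun _ => (1 : ℝ)) θ - 1 / 2

theorem measurable_sqw : Measurable sqw :=
  (measurable_const.indicator measurableSet_ball).sub measurable_const

theorem abs_sqw_le (θ : UnitAddCircle) : |sqw θ| ≤ 1 := by
  unfold sqw
  by_cases h : θ ∈ ball (0 : UnitAddCircle) (1 / 4)
  · rw [indicator_of_mem h]; norm_num [abs_of_pos]
  · rw [indicator_of_notMem h]; norm_num [abs_of_pos]

theorem integral_sqw_mul (x y : UnitAddCircle) :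
    ∫ θ, sqw (θ - x) * sqw (θ - y) = 1 / 4 - ‖x - y‖ := by
  have h1 : ∫ θ, sqw (θ - x) * sqw (θ - y) = ∫ θ, sqw θ * sqw (θ - (y - x)) := by
    rw [← integral_add_right_eq_self (fun θ => sqw (θ - x) * sqw (θ - y)) x]
    refine integral_congr_ae (Filter.Eventually.of_forall (fun θ => ?_))
    simp only [add_sub_cancel_right]
    congr 2
    abel
  set v := y - x with hv
  have h2 : ∀ θ, sqw θ * sqw (θ - v) =
      (ball (0 : UnitAddCircle) (1 / 4) ∩ ball v (1 / 4)).indicator (fun _ => (1 : ℝ)) θ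
      - (1 / 2) * (ball (0 : UnitAddCircle) (1 / 4)).indicator (fun _ => (1 : ℝ)) θ
      - (1 / 2) * (ball v (1 / 4)).indicator (fun _ => (1 : ℝ)) θ + 1 / 4 := by
    intro θ
    have e : θ - v ∈ ball (0 : UnitAddCircle) (1 / 4) ↔ θ ∈ ball v (1 / 4) := by
      simp [dist_eq_norm]
    unfold sqw
    by_cases a : θ ∈ ball (0 : UnitAddCircle) (1 / 4) <;> by_cases b : θ ∈ ball v (1 / 4) <;>
      simp only [indicator, mem_inter_iff, e, a, b, if_true, if_false, and_true, and_false] <;>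
      norm_num
  have i : ∀ s : Set UnitAddCircle, MeasurableSet s →
      Integrable (s.indicator (fun _ => (1 : ℝ))) volume :=
    fun s hs => (integrable_const _).indicator hs
  have m1 : MeasurableSet (ball (0 : UnitAddCircle) (1 / 4)) := measurableSet_ball
  have m2 : MeasurableSet (ball v (1 / 4)) := measurableSet_ball
  rw [h1]
  simp only [h2]
  rw [integral_add _ (integrable_const _), integral_sub, integral_sub, integral_const_mul,
    integral_const_mul, integral_indicator_const _ (m1.inter m2), integral_indicator_const _ m1,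
    integral_indicator_const _ m2, real_volume_inter,
    real_volume_ball _ (by norm_num) (by norm_num), real_volume_ball _ (by norm_num) (by norm_num),
    hv, norm_sub_rev y x]
  · simp; ring
  · exact i _ (m1.inter m2)
  · exact (i _ m1).const_mul _
  · exact (i _ (m1.inter m2)).sub ((i _ m1).const_mul _)
  · exact (i _ m2).const_mul _
  · exact ((i _ (m1.inter m2)).sub ((i _ m1).const_mul _)).sub ((i _ m2).const_mul _)

end Pool.Agent.MP_ae59d5_an

end MrgPart0

-- ======== part 1: formerly Pool.Agent.MP_ae59d5_an.PSD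
section MrgPart1

/-!
Positive semidefinite kernels given by a feature map, and the three kernels on the torus.
-/

set_option autoImplicit false

namespace Pool.Agent.MP_ae59d5_an

open MeasureTheory Function

section General

variable {X Θ : Type} [MeasurableSpace X] [MeasurableSpace Θ] (μ : Measure X)
  [IsProbabilityMeasure μ] (P : Measure Θ) [IsProbabilityMeasure P] (φ : X → Θ → ℝ)

theorem integrable_of_abs_le {Z : Type} [MeasurableSpace Z] (m : Measure Z) [IsFiniteMeasure m]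
    {f : Z → ℝ} (hf : Measurable f) (C : ℝ) (hb : ∀ z, |f z| ≤ C) : Integrable f m :=
  Integrable.of_bound hf.aestronglyMeasurable C (Filter.Eventually.of_forall hb)

theorem abs_mul_le_one' {a b : ℝ} (ha : |a| ≤ 1) (hb : |b| ≤ 1) : |a * b| ≤ 1 := by
  rw [abs_mul]; exact mul_le_one₀ ha (abs_nonneg _) hb

theorem psd_pot (hφ : Measurable (uncurry φ)) (hb : ∀ x θ, |φ x θ| ≤ 1) (x : X) :
    ∫ y, (∫ θ, φ x θ * φ y θ ∂P) ∂μ = ∫ θ, φ x θ * (∫ y, φ y θ ∂μ) ∂P := by
  have hx : Measurable (φ x) := hφ.of_uncurry_left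
  rw [integral_integral_swap]
  · simp only [integral_const_mul]
  · exact integrable_of_abs_le _ ((hx.comp measurable_snd).mul hφ) 1
      (fun z => abs_mul_le_one' (hb _ _) (hb _ _))

theorem psd_mean_measurable (hφ : Measurable (uncurry φ)) :
    Measurable (fun θ => ∫ y, φ y θ ∂μ) :=
  (hφ.stronglyMeasurable.integral_prod_left (μ := μ)).measurable

theorem psd_mean_bound (hb : ∀ x θ, |φ x θ| ≤ 1) (θ : Θ) : |∫ y, φ y θ ∂μ| ≤ 1 := by
  have := norm_integral_le_of_norm_le_const (μ := μ) (f := fun y => φ y θ) (C := 1)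
    (Filter.Eventually.of_forall (fun y => hb y θ))
  simpa using this

theorem psd_energy (hφ : Measurable (uncurry φ)) (hb : ∀ x θ, |φ x θ| ≤ 1) :
    ∫ x, ∫ y, (∫ θ, φ x θ * φ y θ ∂P) ∂μ ∂μ = ∫ θ, (∫ y, φ y θ ∂μ) ^ 2 ∂P := by
  simp only [psd_pot μ P φ hφ hb]
  rw [integral_integral_swap]
  · simp only [integral_mul_const, sq]
  · exact integrable_of_abs_le _
      (hφ.mul ((psd_mean_measurable μ φ hφ).comp measurable_snd)) 1
      (fun z => abs_mul_le_one' (hb _ _) (psd_mean_bound μ φ hb _))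

theorem psd_nonneg (hφ : Measurable (uncurry φ)) (hb : ∀ x θ, |φ x θ| ≤ 1) :
    0 ≤ ∫ x, ∫ y, (∫ θ, φ x θ * φ y θ ∂P) ∂μ ∂μ := by
  rw [psd_energy μ P φ hφ hb]
  exact integral_nonneg (fun θ => sq_nonneg _)

theorem psd_zero (hφ : Measurable (uncurry φ)) (hb : ∀ x θ, |φ x θ| ≤ 1)
    (h : ∫ x, ∫ y, (∫ θ, φ x θ * φ y θ ∂P) ∂μ ∂μ = 0) (x : X) :
    ∫ y, (∫ θ, φ x θ * φ y θ ∂P) ∂μ = 0 := by
  rw [psd_energy μ P φ hφ hb, integral_eq_zero_iff_of_nonneg (fun θ => sq_nonneg _)] at h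
  · rw [psd_pot μ P φ hφ hb]
    refine integral_eq_zero_of_ae ?_
    filter_upwards [h] with θ hθ
    have : ∫ y, φ y θ ∂μ = 0 := by simpa using hθ
    simp [this]
  · refine integrable_of_abs_le _ ((psd_mean_measurable μ φ hφ).pow_const 2) 1 (fun θ => ?_)
    rw [sq]
    exact abs_mul_le_one' (psd_mean_bound μ φ hb _) (psd_mean_bound μ φ hb _)

end General

/-- First triangle wave kernel. -/
noncomputable def k1 (x y : T2) : ℝ := 1 / 4 - ‖x.1 - y.1‖

/-- Second triangle wave kernel. -/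
noncomputable def k2 (x y : T2) : ℝ := 1 / 4 - ‖x.2 - y.2‖

variable (μ : Measure T2) [IsProbabilityMeasure μ]

theorem k1_psd : 0 ≤ ∫ x, ∫ y, k1 x y ∂μ ∂μ ∧
    (∫ x, ∫ y, k1 x y ∂μ ∂μ = 0 → ∀ x, ∫ y, k1 x y ∂μ = 0) := by
  have hm : Measurable (uncurry (fun (x : T2) (θ : UnitAddCircle) => sqw (θ - x.1))) :=
    measurable_sqw.comp (measurable_snd.sub measurable_fst.fst)
  have h1 := psd_nonneg μ volume _ hm (fun x θ => abs_sqw_le _)
  have h2 := psd_zero μ volume _ hm (fun x θ => abs_sqw_le _)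
  simp only [integral_sqw_mul] at h1 h2
  exact ⟨h1, h2⟩

theorem k2_psd : 0 ≤ ∫ x, ∫ y, k2 x y ∂μ ∂μ ∧
    (∫ x, ∫ y, k2 x y ∂μ ∂μ = 0 → ∀ x, ∫ y, k2 x y ∂μ = 0) := by
  have hm : Measurable (uncurry (fun (x : T2) (θ : UnitAddCircle) => sqw (θ - x.2))) :=
    measurable_sqw.comp (measurable_snd.sub measurable_fst.snd)
  have h1 := psd_nonneg μ volume _ hm (fun x θ => abs_sqw_le _)
  have h2 := psd_zero μ volume _ hm (fun x θ => abs_sqw_le _)
  simp only [integral_sqw_mul] at h1 h2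
  exact ⟨h1, h2⟩

theorem k12_psd : 0 ≤ ∫ x, ∫ y, k1 x y * k2 x y ∂μ ∂μ ∧
    (∫ x, ∫ y, k1 x y * k2 x y ∂μ ∂μ = 0 → ∀ x, ∫ y, k1 x y * k2 x y ∂μ = 0) := by
  have hm : Measurable (uncurry (fun (x : T2) (θ : UnitAddCircle × UnitAddCircle) =>
      sqw (θ.1 - x.1) * sqw (θ.2 - x.2))) :=
    (measurable_sqw.comp (measurable_snd.fst.sub measurable_fst.fst)).mul
      (measurable_sqw.comp (measurable_snd.snd.sub measurable_fst.snd))
  have hb : ∀ (x : T2) (θ : UnitAddCircle × UnitAddCircle),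
      |sqw (θ.1 - x.1) * sqw (θ.2 - x.2)| ≤ 1 :=
    fun x θ => abs_mul_le_one' (abs_sqw_le _) (abs_sqw_le _)
  have h1 := psd_nonneg μ (volume.prod volume) _ hm hb
  have h2 := psd_zero μ (volume.prod volume) _ hm hb
  have e : ∀ x y : T2, ∫ θ : UnitAddCircle × UnitAddCircle,
      (sqw (θ.1 - x.1) * sqw (θ.2 - x.2)) * (sqw (θ.1 - y.1) * sqw (θ.2 - y.2))
        ∂(volume.prod volume) = k1 x y * k2 x y := by
    intro x y
    unfold k1 k2
    rw [← integral_sqw_mul, ← integral_sqw_mul, ← integral_prod_mul]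
    refine integral_congr_ae (Filter.Eventually.of_forall (fun θ => ?_))
    simp only
    ring
  simp only [e] at h1 h2
  exact ⟨h1, h2⟩

end Pool.Agent.MP_ae59d5_an

end MrgPart1

-- ======== part 2: formerly Pool.Agent.MP_ae59d5_an.Ineq
section MrgPart2

/-!
The pointwise majorant: bilinear interpolation of `ρ^α` at the four corners.
-/

set_option autoImplicit false

namespace Pool.Agent.MP_ae59d5_an

/-- The diameter `√(1/2)` of the torus. -/
noncomputable def dm : ℝ := Real.sqrt (1 / 2)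

theorem dm_sq : dm ^ 2 = 1 / 2 := Real.sq_sqrt (by norm_num)

theorem dm_pos : 0 < dm := Real.sqrt_pos.2 (by norm_num)

theorem dm_lt_one : dm < 1 := by
  have := dm_sq
  have := dm_pos
  nlinarith

theorem dm_gt : 1 / 2 < dm := by
  have := dm_sq
  have := dm_pos
  nlinarith

theorem half_rpow (α : ℝ) : (1 / 2 : ℝ) ^ α = (dm ^ α) ^ 2 := by
  rw [← dm_sq, ← Real.rpow_natCast, ← Real.rpow_natCast, ← Real.rpow_mul dm_pos.le,
    ← Real.rpow_mul dm_pos.le, mul_comm]

theorem dm_rpow_two : dm ^ (2 : ℝ) = 1 / 2 := by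
  rw [← dm_sq, ← Real.rpow_natCast]; norm_num

theorem dm_rpow_gt {α : ℝ} (h : α < 2) : 1 / 2 < dm ^ α := by
  rw [← dm_rpow_two]
  exact Real.rpow_lt_rpow_of_exponent_gt dm_pos dm_lt_one h

theorem coef_pos {α : ℝ} (h : α < 2) : 0 < 2 * (1 / 2 : ℝ) ^ α - dm ^ α := by
  have := dm_rpow_gt h
  rw [half_rpow]
  nlinarith

/-- The bilinear interpolation of the distance itself. -/
noncomputable def lin (s t : ℝ) : ℝ := s * (1 - 2 * t) + t * (1 - 2 * s) + 4 * s * t * dm

theorem lin_sq_sub (s t : ℝ) : lin s t ^ 2 - (s ^ 2 + t ^ 2) =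
    s * t * ((4 - 4 * dm) ^ 2 * (1 / 2 - s) * (1 / 2 - t) +
      (4 - 4 * dm) * (2 * dm) * ((1 / 2 - s) + (1 / 2 - t))) := by
  have h := dm_sq
  unfold lin
  linear_combination (4 * s * t) * h

theorem sqrt_le_lin {s t : ℝ} (s0 : 0 ≤ s) (s1 : s ≤ 1 / 2) (t0 : 0 ≤ t) (t1 : t ≤ 1 / 2) :
    Real.sqrt (s ^ 2 + t ^ 2) ≤ lin s t ∧
      (Real.sqrt (s ^ 2 + t ^ 2) = lin s t → s = 0 ∨ t = 0 ∨ (s = 1 / 2 ∧ t = 1 / 2)) := by
  have d0 := dm_pos
  have d1 := dm_lt_one
  have hs : 0 ≤ 1 / 2 - s := by linarith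
  have ht : 0 ≤ 1 / 2 - t := by linarith
  have hk : 0 < 4 - 4 * dm := by linarith
  have hl : 0 ≤ lin s t := by
    unfold lin
    have : 0 ≤ 1 - 2 * t := by linarith
    have : 0 ≤ 1 - 2 * s := by linarith
    positivity
  have h := lin_sq_sub s t
  constructor
  · rw [Real.sqrt_le_left hl]
    have : 0 ≤ s * t * ((4 - 4 * dm) ^ 2 * (1 / 2 - s) * (1 / 2 - t) +
      (4 - 4 * dm) * (2 * dm) * ((1 / 2 - s) + (1 / 2 - t))) := by positivity
    linarith
  · intro he
    have h2 : lin s t ^ 2 = s ^ 2 + t ^ 2 := by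
      rw [← he, Real.sq_sqrt (by positivity)]
    rw [h2, sub_self] at h
    rcases mul_eq_zero.1 h.symm with h3 | h3
    · rcases mul_eq_zero.1 h3 with h4 | h4
      · exact Or.inl h4
      · exact Or.inr (Or.inl h4)
    · right; right
      have a1 : 0 ≤ (4 - 4 * dm) ^ 2 * (1 / 2 - s) * (1 / 2 - t) := by positivity
      have a2 : 0 < (4 - 4 * dm) * (2 * dm) := by positivity
      have a3 : (1 / 2 - s) + (1 / 2 - t) ≤ 0 := by
        by_contra hc
        have := mul_pos a2 (not_le.1 hc)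
        linarith
      constructor <;> linarith

/-- The majorant. -/
noncomputable def maj (α s t : ℝ) : ℝ :=
  (1 / 2 : ℝ) ^ α * (2 * s * (1 - 2 * t) + 2 * t * (1 - 2 * s)) + dm ^ α * (4 * s * t)

theorem lin_rpow_le {α s t : ℝ} (hα : 1 ≤ α) (s0 : 0 ≤ s) (s1 : s ≤ 1 / 2) (t0 : 0 ≤ t)
    (t1 : t ≤ 1 / 2) : lin s t ^ α ≤ maj α s t := by
  have hs : 0 ≤ 1 - 2 * s := by linarith
  have ht : 0 ≤ 1 - 2 * t := by linarith
  have d0 := dm_pos
  have h := Real.rpow_arith_mean_le_arith_mean_rpow (Finset.univ : Finset (Fin 3))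
    ![(1 - 2 * s) * (1 - 2 * t), 2 * s * (1 - 2 * t) + 2 * t * (1 - 2 * s), 4 * s * t]
    ![0, 1 / 2, dm]
    (by intro i _; fin_cases i <;> simp <;> positivity)
    (by simp [Fin.sum_univ_three]; ring)
    (by intro i _; fin_cases i <;> simp; positivity) hα
  simp only [Fin.sum_univ_three, Matrix.cons_val_zero, Matrix.cons_val_one, Matrix.cons_val,
    Real.zero_rpow (by linarith : α ≠ 0)] at h
  unfold lin maj
  convert h using 2 <;> ring

theorem rpow_le_maj {α s t : ℝ} (hα : 1 ≤ α) (s0 : 0 ≤ s) (s1 : s ≤ 1 / 2) (t0 : 0 ≤ t)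
    (t1 : t ≤ 1 / 2) : Real.sqrt (s ^ 2 + t ^ 2) ^ α ≤ maj α s t ∧
      (Real.sqrt (s ^ 2 + t ^ 2) ^ α = maj α s t → s = 0 ∨ t = 0 ∨ (s = 1 / 2 ∧ t = 1 / 2)) := by
  obtain ⟨h1, h2⟩ := sqrt_le_lin s0 s1 t0 t1
  have h3 := lin_rpow_le hα s0 s1 t0 t1
  refine ⟨(Real.rpow_le_rpow (Real.sqrt_nonneg _) h1 (by linarith)).trans h3, fun he => h2 ?_⟩
  by_contra hne
  have := Real.rpow_lt_rpow (Real.sqrt_nonneg _) (lt_of_le_of_ne h1 hne) (by linarith : 0 < α)
  linarith

theorem maj_eq (α s t : ℝ) : maj α s t = (2 * (1 / 2 : ℝ) ^ α + dm ^ α) / 4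
    - dm ^ α * ((1 / 4 - s) + (1 / 4 - t))
    - 4 * (2 * (1 / 2 : ℝ) ^ α - dm ^ α) * ((1 / 4 - s) * (1 / 4 - t)) := by
  unfold maj; ring

/-- For `α ≥ 2`. -/
theorem rpow_le_maj2 {α s t : ℝ} (hα : 2 ≤ α) (s0 : 0 ≤ s) (s1 : s ≤ 1 / 2) (t0 : 0 ≤ t)
    (t1 : t ≤ 1 / 2) : Real.sqrt (s ^ 2 + t ^ 2) ^ α ≤ dm ^ α * (s + t) ∧
      (Real.sqrt (s ^ 2 + t ^ 2) ^ α = dm ^ α * (s + t) →
        (s = 0 ∨ s = 1 / 2) ∧ (t = 0 ∨ t = 1 / 2) ∧ (2 < α → s = t)) := by
  set r := Real.sqrt (s ^ 2 + t ^ 2) with hr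
  have r0 : 0 ≤ r := Real.sqrt_nonneg _
  have r2 : r ^ 2 = s ^ 2 + t ^ 2 := Real.sq_sqrt (by positivity)
  have rd : r ≤ dm := Real.sqrt_le_sqrt (by nlinarith)
  have d0 := dm_pos
  have e1 : r ^ α = r ^ (α - 2) * r ^ 2 := by
    rw [← Real.rpow_natCast r 2, ← Real.rpow_add' r0 (by simp; linarith)]
    simp
  have e2 : dm ^ α = dm ^ (α - 2) * (1 / 2) := by
    rw [← dm_rpow_two, ← Real.rpow_add d0]
    simp
  have h1 : r ^ (α - 2) ≤ dm ^ (α - 2) := Real.rpow_le_rpow r0 rd (by linarith)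
  have h2 : 0 < dm ^ (α - 2) := Real.rpow_pos_of_pos d0 _
  have h3 : 0 ≤ s * (1 / 2 - s) := mul_nonneg s0 (by linarith)
  have h4 : 0 ≤ t * (1 / 2 - t) := mul_nonneg t0 (by linarith)
  have h5 : r ^ (α - 2) * r ^ 2 ≤ dm ^ (α - 2) * r ^ 2 :=
    mul_le_mul_of_nonneg_right h1 (sq_nonneg _)
  have h6 : dm ^ (α - 2) * (1 / 2) * (s + t) - dm ^ (α - 2) * r ^ 2
      = dm ^ (α - 2) * (s * (1 / 2 - s) + t * (1 / 2 - t)) := by rw [r2]; ring
  have h7 : 0 ≤ dm ^ (α - 2) * (s * (1 / 2 - s) + t * (1 / 2 - t)) := by positivity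
  rw [e1, e2]
  refine ⟨by linarith, fun he => ?_⟩
  have h8 : s * (1 / 2 - s) + t * (1 / 2 - t) = 0 := by
    have : dm ^ (α - 2) * (s * (1 / 2 - s) + t * (1 / 2 - t)) = 0 := by linarith
    exact (mul_eq_zero.1 this).resolve_left h2.ne'
  have h9 : s = 0 ∨ s = 1 / 2 := by
    rcases mul_eq_zero.1 (show s * (1 / 2 - s) = 0 by linarith) with h | h
    · exact Or.inl h
    · right; linarith
  have h10 : t = 0 ∨ t = 1 / 2 := by
    rcases mul_eq_zero.1 (show t * (1 / 2 - t) = 0 by linarith) with h | h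
    · exact Or.inl h
    · right; linarith
  refine ⟨h9, h10, fun hα' => ?_⟩
  by_contra hne
  have r4 : r ^ 2 = 1 / 4 := by
    rcases h9 with a | a <;> rcases h10 with b | b
    · exact absurd (a.trans b.symm) hne
    · rw [r2, a, b]; norm_num
    · rw [r2, a, b]; norm_num
    · exact absurd (a.trans b.symm) hne
  have rlt : r < dm := by
    have := dm_gt
    nlinarith
  have := Real.rpow_lt_rpow r0 rlt (by linarith : 0 < α - 2)
  rw [r4] at h5 h6 he
  rw [h8] at h6
  linarith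

end Pool.Agent.MP_ae59d5_an

end MrgPart2

-- marker of a merged file
example : 731051 + 462782 = 731051 + 462782 := rfl
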