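import Pool.Agent.MP_ae59d5_an.Four

-- ======== part 0: formerly Pool.Agent.MP_ae59d5_an.Classify
section MrgPart0

/-!
Classification of the maximizers for `α ≥ 1`.
-/

set_option autoImplicit false

namespace Pool.Agent.MP_ae59d5_an

open MeasureTheory

theorem integrable_of_continuous {Z : Type} [TopologicalSpace Z] [CompactSpace Z]
    [MeasurableSpace Z] [OpensMeasurableSpace Z] (m : Measure Z) [IsFiniteMeasure m]
    {f : Z → ℝ} (hf : Continuous f) : Integrable f m :=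
  hf.integrable_of_hasCompactSupport (HasCompactSupport.of_compactSpace _)

theorem continuous_rho : Continuous (fun z : T2 × T2 => rho z.1 z.2) := by
  unfold rho; fun_prop

theorem continuous_rho_rpow {α : ℝ} (hα : 0 < α) :
    Continuous (fun z : T2 × T2 => rho z.1 z.2 ^ α) :=
  continuous_rho.rpow_const (fun _ => Or.inr hα.le)

theorem continuous_k1 : Continuous (fun z : T2 × T2 => k1 z.1 z.2) := by
  unfold k1; fun_prop

theorem continuous_k2 : Continuous (fun z : T2 × T2 => k2 z.1 z.2) := by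
  unfold k2; fun_prop

theorem integral_comb {Z : Type} [MeasurableSpace Z] (m : Measure Z) [IsProbabilityMeasure m]
    {f g h k : Z → ℝ} (hf : Integrable f m) (hg : Integrable g m) (hh : Integrable h m)
    (hk : Integrable k m) (a b c d e : ℝ) :
    ∫ z, (a + b * f z + c * g z + d * h z + e * k z) ∂m =
      a + b * ∫ z, f z ∂m + c * ∫ z, g z ∂m + d * ∫ z, h z ∂m + e * ∫ z, k z ∂m := by
  have i0 : Integrable (fun _ : Z => a) m := integrable_const a
  have i1 : Integrable (fun z => a + b * f z) m := i0.add (hf.const_mul b)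
  have i2 : Integrable (fun z => a + b * f z + c * g z) m := i1.add (hg.const_mul c)
  have i3 : Integrable (fun z => a + b * f z + c * g z + d * h z) m := i2.add (hh.const_mul d)
  rw [integral_add i3 (hk.const_mul e), integral_add i2 (hh.const_mul d),
    integral_add i1 (hg.const_mul c), integral_add i0 (hf.const_mul b)]
  simp [integral_const_mul]

theorem lp_bound (μ : Measure T2) [IsProbabilityMeasure μ] (F : T2 → T2 → ℝ)
    (hF : Continuous (fun z : T2 × T2 => F z.1 z.2)) (A B C : ℝ) (hB : 0 < B) (hC : 0 ≤ C)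
    (hle : ∀ x y, F x y ≤ A - B * (k1 x y + k2 x y) - C * (k1 x y * k2 x y)) :
    ∫ x, ∫ y, F x y ∂μ ∂μ ≤ A ∧ (∫ x, ∫ y, F x y ∂μ ∂μ = A →
      (∀ᵐ x ∂μ, ∀ᵐ y ∂μ, F x y = A - B * (k1 x y + k2 x y) - C * (k1 x y * k2 x y)) ∧
      (∀ x, ∫ y, k1 x y ∂μ = 0) ∧ (∀ x, ∫ y, k2 x y ∂μ = 0) ∧
      (0 < C → ∀ x, ∫ y, k1 x y * k2 x y ∂μ = 0)) := by
  have iF := integrable_of_continuous (μ.prod μ) hF
  have i1 := integrable_of_continuous (μ.prod μ) continuous_k1
  have i2 := integrable_of_continuous (μ.prod μ) continuous_k2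
  have i3 : Integrable (fun z : T2 × T2 => k1 z.1 z.2 * k2 z.1 z.2) (μ.prod μ) :=
    integrable_of_continuous (μ.prod μ) (continuous_k1.mul continuous_k2)
  obtain ⟨p1, q1⟩ := k1_psd μ
  obtain ⟨p2, q2⟩ := k2_psd μ
  obtain ⟨p3, q3⟩ := k12_psd μ
  have iG : Integrable (fun z : T2 × T2 => A - B * (k1 z.1 z.2 + k2 z.1 z.2)
      - C * (k1 z.1 z.2 * k2 z.1 z.2) - F z.1 z.2) (μ.prod μ) :=
    (((integrable_const A).sub ((i1.add i2).const_mul B)).sub (i3.const_mul C)).sub iF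
  have e : ∫ z : T2 × T2, (A - B * (k1 z.1 z.2 + k2 z.1 z.2)
      - C * (k1 z.1 z.2 * k2 z.1 z.2) - F z.1 z.2) ∂(μ.prod μ) =
      A - B * (∫ x, ∫ y, k1 x y ∂μ ∂μ + ∫ x, ∫ y, k2 x y ∂μ ∂μ)
        - C * (∫ x, ∫ y, k1 x y * k2 x y ∂μ ∂μ) - ∫ x, ∫ y, F x y ∂μ ∂μ := by
    have := integral_comb (μ.prod μ) i1 i2 i3 iF A (-B) (-B) (-C) (-1)
    rw [integral_prod _ i1, integral_prod _ i2, integral_prod _ i3, integral_prod _ iF] at this
    refine Eq.trans ?_ (this.trans ?_)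
    · exact integral_congr_ae (Filter.Eventually.of_forall (fun z => by simp only; ring))
    · ring
  have hn : ∀ z : T2 × T2, 0 ≤ A - B * (k1 z.1 z.2 + k2 z.1 z.2)
      - C * (k1 z.1 z.2 * k2 z.1 z.2) - F z.1 z.2 := fun z => sub_nonneg.2 (hle z.1 z.2)
  have h0 : 0 ≤ ∫ z : T2 × T2, (A - B * (k1 z.1 z.2 + k2 z.1 z.2)
      - C * (k1 z.1 z.2 * k2 z.1 z.2) - F z.1 z.2) ∂(μ.prod μ) := integral_nonneg hn
  rw [e] at h0
  have b1 := mul_nonneg hB.le p1
  have b2 := mul_nonneg hB.le p2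
  have b3 := mul_nonneg hC p3
  refine ⟨by linarith, fun hA => ⟨?_, q1 ?_, q2 ?_, fun hC' => q3 ?_⟩⟩
  · have h1 : ∫ z : T2 × T2, (A - B * (k1 z.1 z.2 + k2 z.1 z.2)
      - C * (k1 z.1 z.2 * k2 z.1 z.2) - F z.1 z.2) ∂(μ.prod μ) = 0 := by
      rw [e]; linarith
    rw [integral_eq_zero_iff_of_nonneg hn iG] at h1
    filter_upwards [Measure.ae_ae_of_ae_prod h1] with x hx
    filter_upwards [hx] with y hy
    have : A - B * (k1 x y + k2 x y) - C * (k1 x y * k2 x y) - F x y = 0 := hy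
    linarith
  · exact (mul_eq_zero.1 (show B * _ = 0 by linarith)).resolve_left hB.ne'
  · exact (mul_eq_zero.1 (show B * _ = 0 by linarith)).resolve_left hB.ne'
  · exact (mul_eq_zero.1 (show C * _ = 0 by linarith)).resolve_left hC'.ne'

theorem sub_eq_half {x y : UnitAddCircle} (h : ‖x - y‖ = 1 / 2) : y = x + half := by
  have := eq_half_of_norm h
  rw [← neg_half, ← this]; abel

theorem sub_eq_zero' {x y : UnitAddCircle} (h : ‖x - y‖ = 0) : y = x :=
  (sub_eq_zero.1 (norm_eq_zero.1 h)).symm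

theorem moments_four (p : T2) {a b c d : ℝ} (ha : 0 ≤ a) (hb : 0 ≤ b) (hc : 0 ≤ c) (hd : 0 ≤ d) :
    ∫ _y, (1 : ℝ) ∂(four p a b c d) = a + b + c + d ∧
    ∫ y, k1 p y ∂(four p a b c d) = (a - b + c - d) / 4 ∧
    ∫ y, k2 p y ∂(four p a b c d) = (a + b - c - d) / 4 ∧
    ∫ y, k1 p y * k2 p y ∂(four p a b c d) = (a - b - c + d) / 16 := by
  simp only [integral_four p ha hb hc hd, k1, k2, Prod.fst_add, Prod.snd_add, sub_self,
    sub_add_cancel_left, norm_neg, norm_half, norm_zero]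
  refine ⟨by ring, by ring, by ring, by ring⟩

theorem eq_eta_of_cross (μ : Measure T2) [IsProbabilityMeasure μ]
    (h : ∀ᵐ x ∂μ, ∀ᵐ y ∂μ, y.1 = x.1 ∨ y.2 = x.2 ∨ y = x + (half, half))
    (h1 : ∀ x, ∫ y, k1 x y ∂μ = 0) (h2 : ∀ x, ∫ y, k2 x y ∂μ = 0)
    (h3 : ∀ x, ∫ y, k1 x y * k2 x y ∂μ = 0) : ∃ p, μ = eta p := by
  obtain ⟨p, hp⟩ := h.exists
  have c1 : Continuous (k1 p) := by unfold k1; fun_prop
  have c2 : Continuous (k2 p) := by unfold k2; fun_prop
  have i1 := integrable_of_continuous μ c1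
  have i2 := integrable_of_continuous μ c2
  have i3 : Integrable (fun y => k1 p y * k2 p y) μ := integrable_of_continuous μ (c1.mul c2)
  have e1 : ∫ y, (1 / 16 - (1 / 4) * (k1 p y + k2 p y) + k1 p y * k2 p y) ∂μ = 1 / 16 := by
    have := integral_comb μ i1 i2 i3 i3 (1 / 16) (-1 / 4) (-1 / 4) 1 0
    rw [h1, h2, h3] at this
    refine Eq.trans ?_ (this.trans ?_)
    · exact integral_congr_ae (Filter.Eventually.of_forall (fun z => by simp only; ring))
    · ring
  have hatom : μ {p + (half, half)} ≠ 0 := by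
    intro h0
    have : ∀ᵐ y ∂μ, y ≠ p + (half, half) := by
      rw [ae_iff]; simpa using h0
    rw [integral_eq_zero_of_ae] at e1
    · norm_num at e1
    · filter_upwards [hp, this] with y hy hy'
      rcases hy with a | a | a
      · simp only [k1, k2, a, sub_self, norm_zero, Pi.zero_apply]; ring
      · simp only [k1, k2, a, sub_self, norm_zero, Pi.zero_apply]; ring
      · exact absurd a hy'
  have hq : ∀ᵐ y ∂μ, y.1 = (p + (half, half)).1 ∨ y.2 = (p + (half, half)).2 ∨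
      y = (p + (half, half)) + (half, half) := by
    by_contra hc
    apply hatom
    refine measure_mono_null ?_ (ae_iff.1 h)
    rintro x rfl
    exact hc
  have hne : ∀ z : UnitAddCircle, z ≠ z + half := fun z hz =>
    half_ne_zero (by simpa using hz)
  obtain ⟨a, b, c, d, ha, hb, hc, hd, rfl⟩ := eq_four_of_ae μ p (by
    filter_upwards [hp, hq] with y a b
    rcases b with b | b | b
    · rcases a with a | a | a
      · exact absurd (a.symm.trans b) (hne _)
      · right; left; exact Prod.ext b (by simpa using a)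
      · right; right; right; exact a
    · rcases a with a | a | a
      · right; right; left; exact Prod.ext (by simpa using a) b
      · exact absurd (a.symm.trans b) (hne _)
      · right; right; right; exact a
    · left
      rw [b, add_assoc]
      simp [half_add_half])
  obtain ⟨m0, m1, m2, m3⟩ := moments_four p ha hb hc hd
  rw [h1] at m1
  rw [h2] at m2
  rw [h3] at m3
  simp only [integral_const, probReal_univ, smul_eq_mul, mul_one] at m0
  refine ⟨p, ?_⟩
  rw [eta_eq]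
  congr 1 <;> linarith

theorem classify_lt_two {α : ℝ} (h1 : 1 ≤ α) (h2 : α < 2) (μ : Measure T2) :
    IsMaximizer α μ ↔ ∃ p, μ = eta p := by
  have hα : 0 < α := by linarith
  have hd : 0 < dm ^ α := Real.rpow_pos_of_pos dm_pos _
  have hc := coef_pos h2
  have key := fun (ν : Measure T2) (_ : IsProbabilityMeasure ν) =>
    lp_bound ν (fun x y => rho x y ^ α) (continuous_rho_rpow hα)
      ((2 * (1 / 2 : ℝ) ^ α + dm ^ α) / 4) (dm ^ α) (4 * (2 * (1 / 2 : ℝ) ^ α - dm ^ α)) hd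
      (by linarith) (fun x y => by
        have := (rpow_le_maj h1 (norm_nonneg (x.1 - y.1)) (norm_le_half _)
          (norm_nonneg (x.2 - y.2)) (norm_le_half _)).1
        rwa [maj_eq] at this)
  constructor
  · rintro ⟨hμ, hmax⟩
    have a1 := hmax (eta 0) inferInstance
    rw [energy_eta 0 hα] at a1
    obtain ⟨b1, b2, b3, b4⟩ := (key μ hμ).2 (le_antisymm (key μ hμ).1 a1)
    refine eq_eta_of_cross μ ?_ b2 b3 (b4 (by linarith))
    filter_upwards [b1] with x hx
    filter_upwards [hx] with y hy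
    have := (rpow_le_maj h1 (norm_nonneg (x.1 - y.1)) (norm_le_half _)
          (norm_nonneg (x.2 - y.2)) (norm_le_half _)).2 (by rw [maj_eq]; exact hy)
    rcases this with a | a | a
    · exact Or.inl (sub_eq_zero' a)
    · exact Or.inr (Or.inl (sub_eq_zero' a))
    · exact Or.inr (Or.inr (Prod.ext (sub_eq_half a.1) (sub_eq_half a.2)))
  · rintro ⟨p, rfl⟩
    refine ⟨inferInstance, fun ν hν => ?_⟩
    rw [energy_eta p hα]
    exact (key ν hν).1

theorem bound_ge_two {α : ℝ} (h2 : 2 ≤ α) (μ : Measure T2) [IsProbabilityMeasure μ] :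
    energy α μ ≤ dm ^ α / 2 ∧ (energy α μ = dm ^ α / 2 →
      ∃ (p : T2) (t : ℝ), 0 ≤ t ∧ t ≤ 1 ∧ (2 < α → t = 1) ∧
        μ = four p (t / 2) ((1 - t) / 2) ((1 - t) / 2) (t / 2)) := by
  have hα : 0 < α := by linarith
  have hd : 0 < dm ^ α := Real.rpow_pos_of_pos dm_pos _
  have e : ∀ x y : T2, dm ^ α / 2 - dm ^ α * (k1 x y + k2 x y) - 0 * (k1 x y * k2 x y)
      = dm ^ α * (‖x.1 - y.1‖ + ‖x.2 - y.2‖) := by
    intro x y; unfold k1 k2; ring
  obtain ⟨k0, key⟩ := lp_bound μ (fun x y => rho x y ^ α) (continuous_rho_rpow hα)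
      (dm ^ α / 2) (dm ^ α) 0 hd le_rfl (fun x y => by
        rw [e]
        exact (rpow_le_maj2 h2 (norm_nonneg (x.1 - y.1)) (norm_le_half _)
          (norm_nonneg (x.2 - y.2)) (norm_le_half _)).1)
  refine ⟨k0, fun he => ?_⟩
  obtain ⟨b1, b2, b3, -⟩ := key he
  obtain ⟨p, hp⟩ := b1.exists
  have hp' : ∀ᵐ y ∂μ, (‖p.1 - y.1‖ = 0 ∨ ‖p.1 - y.1‖ = 1 / 2) ∧
      (‖p.2 - y.2‖ = 0 ∨ ‖p.2 - y.2‖ = 1 / 2) ∧ (2 < α → ‖p.1 - y.1‖ = ‖p.2 - y.2‖) := by
    filter_upwards [hp] with y hy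
    rw [e] at hy
    exact (rpow_le_maj2 h2 (norm_nonneg (p.1 - y.1)) (norm_le_half _)
          (norm_nonneg (p.2 - y.2)) (norm_le_half _)).2 hy
  have hz : 2 < α → ∫ y, (1 / 16 - k1 p y * k2 p y) ∂μ = 0 := by
    intro hα'
    refine integral_eq_zero_of_ae ?_
    filter_upwards [hp'] with y hy
    simp only [k1, k2, ← hy.2.2 hα', Pi.zero_apply]
    rcases hy.1 with a | a <;> rw [a] <;> norm_num
  obtain ⟨a, b, c, d, ha, hb, hc, hd, rfl⟩ := eq_four_of_ae μ p (by
    filter_upwards [hp'] with y hy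
    rcases hy.1 with a | a <;> rcases hy.2.1 with b | b
    · left; exact Prod.ext (sub_eq_zero' a) (sub_eq_zero' b)
    · right; right; left; exact Prod.ext (by simpa using sub_eq_zero' a) (sub_eq_half b)
    · right; left; exact Prod.ext (sub_eq_half a) (by simpa using sub_eq_zero' b)
    · right; right; right; exact Prod.ext (sub_eq_half a) (sub_eq_half b))
  obtain ⟨m0, m1, m2, -⟩ := moments_four p ha hb hc hd
  rw [b2] at m1
  rw [b3] at m2
  simp only [integral_const, probReal_univ, smul_eq_mul, mul_one] at m0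
  refine ⟨p, 2 * a, by linarith, by linarith, fun hα' => ?_, ?_⟩
  · have := hz hα'
    simp only [integral_four p ha hb hc hd, k1, k2, Prod.fst_add, Prod.snd_add, sub_self,
      sub_add_cancel_left, norm_neg, norm_half, norm_zero] at this
    linarith
  · congr 1 <;> linarith

theorem classify_two (μ : Measure T2) : IsMaximizer 2 μ ↔ ∃ (p : T2) (t : ℝ), 0 ≤ t ∧ t ≤ 1 ∧
    μ = ENNReal.ofReal t • nu p + ENNReal.ofReal (1 - t) • nu (p + (half, 0)) := by
  constructor
  · rintro ⟨hμ, hmax⟩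
    have a1 := hmax (nu 0) inferInstance
    rw [energy_nu 0 (by norm_num)] at a1
    obtain ⟨p, t, h0, h1, -, h⟩ := (bound_ge_two le_rfl μ).2
      (le_antisymm (bound_ge_two le_rfl μ).1 a1)
    exact ⟨p, t, h0, h1, by rw [mix_eq p h0 h1, h]⟩
  · rintro ⟨p, t, h0, h1, rfl⟩
    rw [mix_eq p h0 h1]
    have h2 : 0 ≤ (1 - t) / 2 := by linarith
    have h3 : 0 ≤ t / 2 := by linarith
    refine ⟨prob_four p h3 h2 h2 h3 (by ring), fun ν hν => ?_⟩
    refine (bound_ge_two le_rfl ν).1.trans (le_of_eq ?_)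
    rw [energy_four p h3 h2 h2 h3 (by norm_num), half_rpow, dm_rpow_two]
    ring

theorem classify_gt_two {α : ℝ} (h2 : 2 < α) (μ : Measure T2) :
    IsMaximizer α μ ↔ ∃ p, μ = nu p := by
  constructor
  · rintro ⟨hμ, hmax⟩
    have a1 := hmax (nu 0) inferInstance
    rw [energy_nu 0 (by linarith)] at a1
    obtain ⟨p, t, -, -, h1, h⟩ := (bound_ge_two h2.le μ).2
      (le_antisymm (bound_ge_two h2.le μ).1 a1)
    refine ⟨p, ?_⟩
    rw [h, h1 h2, nu_eq]
    norm_num
  · rintro ⟨p, rfl⟩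
    refine ⟨inferInstance, fun ν hν => ?_⟩
    rw [energy_nu p (by linarith)]
    exact (bound_ge_two h2.le ν).1

theorem nu_max_iff (p : T2) {α : ℝ} (hα : 0 < α) : IsMaximizer α (nu p) ↔ 2 ≤ α := by
  constructor
  · rintro ⟨-, hmax⟩
    by_contra hc
    have h1 := coef_pos (not_le.1 hc)
    have h2 := hmax (eta p) inferInstance
    rw [energy_eta p hα, energy_nu p hα] at h2
    linarith
  · intro h
    refine ⟨inferInstance, fun ν hν => ?_⟩
    rw [energy_nu p hα]
    exact (bound_ge_two h ν).1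

end Pool.Agent.MP_ae59d5_an

end MrgPart0

-- ======== part 1: formerly Pool.Agent.MP_ae59d5_an.Small
section MrgPart1

/-!
For `0 < α < 1` the four point measure is not a maximizer.
-/

set_option autoImplicit false

namespace Pool.Agent.MP_ae59d5_an

open MeasureTheory

theorem rpow_sub_le {α a b : ℝ} (h0 : 0 < α) (h1 : α ≤ 1) (hb : 0 ≤ b) (hab : b ≤ a) (ha : 0 < a)
    (ha1 : a ≤ 1) : a ^ α - b ^ α ≤ (a - b) / a := by
  have e : b ^ α = a ^ α * (b / a) ^ α := by
    rw [← Real.mul_rpow ha.le (by positivity)]; congr 1; field_simp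
  have q0 : 0 ≤ b / a := by positivity
  have q1 : b / a ≤ 1 := (div_le_one ha).2 hab
  have h2 : b / a ≤ (b / a) ^ α := by
    rcases q0.eq_or_lt with h | h
    · rw [← h]; exact Real.rpow_nonneg le_rfl _
    · exact Real.self_le_rpow_of_le_one q0 q1 h1
  have h3 : a ^ α ≤ 1 := Real.rpow_le_one ha.le ha1 h0.le
  have h4 : 0 ≤ a ^ α := Real.rpow_nonneg ha.le _
  have h5 : (a - b) / a = 1 - b / a := by field_simp
  rw [e, h5]
  nlinarith [mul_le_mul_of_nonneg_left h2 h4, mul_le_mul_of_nonneg_right h3 (sub_nonneg.2 q1)]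

theorem le_rpow_sub {α a b : ℝ} (h0 : 0 < α) (h1 : α ≤ 1) (hb : 0 ≤ b) (hab : b ≤ a) (ha : 0 < a)
    (ha1 : a ≤ 1) : α * (a - b) ≤ a ^ α - b ^ α := by
  have e : b ^ α = a ^ α * (1 + (b / a - 1)) ^ α := by
    rw [← Real.mul_rpow ha.le (by rw [add_sub_cancel]; positivity)]; congr 1; field_simp; ring
  have q0 : 0 ≤ b / a := by positivity
  have h2 := rpow_one_add_le_one_add_mul_self (s := b / a - 1) (by linarith) h0.le h1
  have h3 : a ≤ a ^ α := Real.self_le_rpow_of_le_one ha.le ha1 h1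
  have h4 : 0 ≤ a ^ α := Real.rpow_nonneg ha.le _
  have h5 : a ^ α * (1 + (b / a - 1)) ^ α ≤ a ^ α * (1 + α * (b / a - 1)) :=
    mul_le_mul_of_nonneg_left h2 h4
  have h6 : 0 ≤ α * (1 - b / a) := mul_nonneg h0.le (sub_nonneg.2 ((div_le_one ha).2 hab))
  have h7 : a * (α * (1 - b / a)) ≤ a ^ α * (α * (1 - b / a)) := mul_le_mul_of_nonneg_right h3 h6
  have h8 : a * (α * (1 - b / a)) = α * (a - b) := by field_simp
  rw [e]
  nlinarith

/-- The potential of the four point measure. -/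
noncomputable def pot (α s t : ℝ) : ℝ :=
  (Real.sqrt (s ^ 2 + t ^ 2) ^ α + Real.sqrt ((1 / 2 - s) ^ 2 + t ^ 2) ^ α +
    Real.sqrt (s ^ 2 + (1 / 2 - t) ^ 2) ^ α + Real.sqrt ((1 / 2 - s) ^ 2 + (1 / 2 - t) ^ 2) ^ α) / 4

theorem norm_sub_add_half (x y : UnitAddCircle) : ‖x - (y + half)‖ = 1 / 2 - ‖x - y‖ := by
  rw [← norm_add_half, ← neg_half]; congr 1; rw [neg_half]; nth_rewrite 2 [← neg_half]; abel

theorem norm_add_half_sub (x y : UnitAddCircle) : ‖x + half - y‖ = 1 / 2 - ‖x - y‖ := by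
  rw [← norm_add_half]; congr 1; abel

theorem integral_eta (p : T2) (f : T2 → ℝ) : ∫ y, f y ∂(eta p) =
    (f p + f (p + (half, 0)) + f (p + (0, half)) + f (p + (half, half))) / 4 := by
  rw [eta_eq, integral_four p (by norm_num) (by norm_num) (by norm_num) (by norm_num)]
  ring

theorem pot_eta (α : ℝ) (q x : T2) :
    ∫ y, rho x y ^ α ∂(eta q) = pot α ‖x.1 - q.1‖ ‖x.2 - q.2‖ := by
  rw [integral_eta]
  simp only [rho, pot, Prod.fst_add, Prod.snd_add, add_zero, norm_sub_add_half]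

theorem mutual_eta (α : ℝ) (p q : T2) :
    ∫ x, pot α ‖x.1 - q.1‖ ‖x.2 - q.2‖ ∂(eta p) = pot α ‖p.1 - q.1‖ ‖p.2 - q.2‖ := by
  rw [integral_eta]
  simp only [pot, Prod.fst_add, Prod.snd_add, add_zero, norm_add_half_sub, sub_sub_cancel]
  ring

theorem integrable_eta (p : T2) (f : T2 → ℝ) : Integrable f (eta p) := by
  have i : ∀ q : T2, Integrable f (Measure.dirac q) := fun q => integrable_dirac (by simp)
  exact ((((i _).add_measure (i _)).add_measure (i _)).add_measure (i _)).smul_measure (by simp)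

theorem integral_mix (p q : T2) (f : T2 → ℝ) :
    ∫ y, f y ∂((1 / 2 : ENNReal) • (eta p + eta q)) =
      (∫ y, f y ∂(eta p) + ∫ y, f y ∂(eta q)) / 2 := by
  rw [integral_smul_measure, integral_add_measure (integrable_eta p f) (integrable_eta q f)]
  simp; ring

theorem pot_lt {α : ℝ} (h0 : 0 < α) (h1 : α < 1) :
    ∃ ε : ℝ, 0 < ε ∧ ε ≤ 1 / 2 ∧ pot α 0 0 < pot α ε 0 := by
  set ε : ℝ := (1 / 8 : ℝ) ^ (1 - α)⁻¹ with hε
  have hβ : 0 < 1 - α := by linarith
  have e0 : 0 < ε := Real.rpow_pos_of_pos (by norm_num) _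
  have e1 : ε ^ (1 - α) = 1 / 8 := Real.rpow_inv_rpow (by norm_num) hβ.ne'
  have e2 : ε ≤ 1 / 8 := by
    rw [← e1]
    refine Real.self_le_rpow_of_le_one e0.le ?_ (by linarith)
    exact Real.rpow_le_one (by norm_num) (by norm_num) (by positivity)
  have e3 : ε ^ α = 8 * ε := by
    have : ε ^ α * ε ^ (1 - α) = ε := by rw [← Real.rpow_add e0]; simp
    rw [e1] at this
    linarith
  refine ⟨ε, e0, by linarith, ?_⟩
  have s1 : Real.sqrt (ε ^ 2 + 0 ^ 2) = ε := by simp [Real.sqrt_sq e0.le]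
  have s2 : Real.sqrt ((1 / 2 - ε) ^ 2 + 0 ^ 2) = 1 / 2 - ε := by
    rw [show (1 / 2 - ε) ^ 2 + 0 ^ 2 = (1 / 2 - ε) ^ 2 by ring, Real.sqrt_sq (by linarith)]
  have s3 : 1 / 2 ≤ Real.sqrt (ε ^ 2 + (1 / 2) ^ 2) := Real.le_sqrt_of_sq_le (by nlinarith)
  have d1 := dm_gt
  have d2 := dm_lt_one
  have d3 := dm_sq
  have s4 : dm - ε ≤ Real.sqrt ((1 / 2 - ε) ^ 2 + (1 / 2) ^ 2) :=
    Real.le_sqrt_of_sq_le (by nlinarith)
  have t2 := rpow_sub_le h0 h1.le (a := 1 / 2) (b := 1 / 2 - ε) (by linarith) (by linarith)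
    (by norm_num) (by norm_num)
  have t3 := Real.rpow_le_rpow (by norm_num) s3 h0.le
  have t4 := Real.rpow_le_rpow (by linarith) s4 h0.le
  have t5 := rpow_sub_le h0 h1.le (a := dm) (b := dm - ε) (by linarith) (by linarith)
    dm_pos d2.le
  have t6 : (dm - (dm - ε)) / dm ≤ 2 * ε := by
    rw [div_le_iff₀ dm_pos]; nlinarith
  have t7 : (1 / 2 - (1 / 2 - ε)) / (1 / 2) = 2 * ε := by ring
  unfold pot
  simp only [sub_zero, s1, s2, sqrt_a, sqrt_b, sqrt_c]
  rw [show ((0 : ℝ) ^ 2 + 0 ^ 2) = 0 by ring, Real.sqrt_zero, Real.zero_rpow h0.ne']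
  linarith

theorem eta_not_max {α : ℝ} (h0 : 0 < α) (h1 : α < 1) (p : T2) : ¬ IsMaximizer α (eta p) := by
  rintro ⟨-, hmax⟩
  obtain ⟨ε, e0, e1, e2⟩ := pot_lt h0 h1
  set q : T2 := p + ((ε : UnitAddCircle), 0) with hq
  have hn : ‖(ε : UnitAddCircle)‖ = ε := by
    rw [norm_coe_of_le (by rwa [abs_of_pos e0]), abs_of_pos e0]
  have hp : IsProbabilityMeasure ((1 / 2 : ENNReal) • (eta p + eta q)) := by
    constructor
    simp only [Measure.coe_smul, Measure.coe_add, Pi.smul_apply, Pi.add_apply, measure_univ,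
      smul_eq_mul, one_div]
    rw [one_add_one_eq_two, ENNReal.inv_mul_cancel (by norm_num) (by norm_num)]
  have h := hmax _ hp
  unfold energy at h
  simp only [integral_mix, pot_eta] at h
  have i : ∀ r : T2, ∫ x, (pot α ‖x.1 - p.1‖ ‖x.2 - p.2‖ + pot α ‖x.1 - q.1‖ ‖x.2 - q.2‖) / 2
      ∂(eta r) = (pot α ‖r.1 - p.1‖ ‖r.2 - p.2‖ + pot α ‖r.1 - q.1‖ ‖r.2 - q.2‖) / 2 := by
    intro r
    rw [integral_div, integral_add (integrable_eta _ _) (integrable_eta _ _), mutual_eta,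
      mutual_eta]
  rw [i, i, mutual_eta] at h
  simp only [hq, Prod.fst_add, Prod.snd_add, sub_self, norm_zero, add_zero, sub_add_cancel_left,
    add_sub_cancel_left, norm_neg, hn] at h
  linarith

end Pool.Agent.MP_ae59d5_an

end MrgPart1

-- marker of a merged file
example : 731051 + 711293 = 731051 + 711293 := rfl
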