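import Mathlib.Tactic.NormNum.RealSqrt
import Pool.Agent.MP_ae59d5_an.Ineq

/-!
Measures carried by a coset of the `2`-torsion subgroup.
-/

set_option autoImplicit false

namespace Pool.Agent.MP_ae59d5_an

open MeasureTheory

/-- The measure with masses `a, b, c, d` at the four points of `p + {0, 1/2}²`. -/
noncomputable def four (p : T2) (a b c d : ℝ) : Measure T2 :=
  ENNReal.ofReal a • Measure.dirac p + ENNReal.ofReal b • Measure.dirac (p + (half, 0)) +
    ENNReal.ofReal c • Measure.dirac (p + (0, half)) +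
    ENNReal.ofReal d • Measure.dirac (p + (half, half))

theorem integral_four (p : T2) {a b c d : ℝ} (ha : 0 ≤ a) (hb : 0 ≤ b) (hc : 0 ≤ c) (hd : 0 ≤ d)
    (f : T2 → ℝ) : ∫ y, f y ∂(four p a b c d) =
      a * f p + b * f (p + (half, 0)) + c * f (p + (0, half)) + d * f (p + (half, half)) := by
  have i : ∀ (r : ℝ) (q : T2), Integrable f (ENNReal.ofReal r • Measure.dirac q) :=
    fun r q => (integrable_dirac (by simp)).smul_measure ENNReal.ofReal_ne_top
  unfold four
  rw [integral_add_measure (((i _ _).add_measure (i _ _)).add_measure (i _ _)) (i _ _),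
    integral_add_measure ((i _ _).add_measure (i _ _)) (i _ _),
    integral_add_measure (i _ _) (i _ _)]
  simp [integral_smul_measure, integral_dirac, ENNReal.toReal_ofReal, ha, hb, hc, hd]

theorem prob_four (p : T2) {a b c d : ℝ} (ha : 0 ≤ a) (hb : 0 ≤ b) (hc : 0 ≤ c) (hd : 0 ≤ d)
    (h : a + b + c + d = 1) : IsProbabilityMeasure (four p a b c d) := by
  constructor
  simp only [four, Measure.coe_add, Measure.coe_smul, Pi.add_apply, Pi.smul_apply, measure_univ,
    smul_eq_mul, mul_one]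
  rw [← ENNReal.ofReal_add ha hb, ← ENNReal.ofReal_add (by positivity) hc,
    ← ENNReal.ofReal_add (by positivity) hd, h, ENNReal.ofReal_one]

theorem eta_eq (p : T2) : eta p = four p (1 / 4) (1 / 4) (1 / 4) (1 / 4) := by
  have : ENNReal.ofReal (1 / 4) = 1 / 4 := by
    rw [ENNReal.ofReal_div_of_pos (by norm_num)]; simp
  simp only [eta, four, this, smul_add]

theorem nu_eq (p : T2) : nu p = four p (1 / 2) 0 0 (1 / 2) := by
  have : ENNReal.ofReal (1 / 2) = 1 / 2 := by
    rw [ENNReal.ofReal_div_of_pos (by norm_num)]; simp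
  simp only [nu, four, this, smul_add, ENNReal.ofReal_zero, zero_smul, add_zero]

theorem mix_eq (p : T2) {t : ℝ} (h0 : 0 ≤ t) (h1 : t ≤ 1) :
    ENNReal.ofReal t • nu p + ENNReal.ofReal (1 - t) • nu (p + (half, 0))
      = four p (t / 2) ((1 - t) / 2) ((1 - t) / 2) (t / 2) := by
  have e : ∀ r : ℝ, 0 ≤ r → ENNReal.ofReal (r / 2) = ENNReal.ofReal r * (1 / 2) := by
    intro r _
    rw [ENNReal.ofReal_div_of_pos (by norm_num)]; simp [div_eq_mul_inv]
  have e2 : p + (half, 0) + (half, half) = p + (0, half) := by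
    rw [add_assoc]; congr 1; simp [half_add_half]
  simp only [nu, four, smul_add, smul_smul, e t h0, e (1 - t) (by linarith), e2]
  abel

theorem eq_four_of_ae (μ : Measure T2) [IsProbabilityMeasure μ] (p : T2)
    (h : ∀ᵐ y ∂μ, y = p ∨ y = p + (half, 0) ∨ y = p + (0, half) ∨ y = p + (half, half)) :
    ∃ a b c d : ℝ, 0 ≤ a ∧ 0 ≤ b ∧ 0 ≤ c ∧ 0 ≤ d ∧ μ = four p a b c d := by
  classical
  have h0 := half_ne_zero
  have h1 : ∀ᵐ y ∂μ, y ∈ ({p, p + (half, 0), p + (0, half), p + (half, half)} : Finset T2) := by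
    filter_upwards [h] with y hy
    simpa using hy
  rw [Measure.ae_mem_finset_iff, Finset.sum_insert, Finset.sum_insert, Finset.sum_insert,
    Finset.sum_singleton] at h1
  · refine ⟨μ.real {p}, μ.real {p + (half, 0)}, μ.real {p + (0, half)}, μ.real {p + (half, half)},
      measureReal_nonneg, measureReal_nonneg, measureReal_nonneg, measureReal_nonneg, ?_⟩
    simp only [four, ofReal_measureReal (measure_ne_top _ _), add_assoc]
    exact h1
  · simp [h0.symm]
  · simp [h0, h0.symm]
  · simp [h0]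

theorem rho_add (p u v : T2) : rho (p + u) (p + v) = rho u v := by
  simp [rho]

theorem rho_add_left (p v : T2) : rho p (p + v) = rho 0 v := by
  simp [rho]

theorem rho_add_right (p u : T2) : rho (p + u) p = rho u 0 := by
  simp [rho]

theorem rho_self (p : T2) : rho p p = 0 := by simp [rho]

theorem sqrt_a : Real.sqrt ((1 / 2) ^ 2 + 0 ^ 2) = 1 / 2 := by
  rw [show ((1 / 2) ^ 2 + 0 ^ 2 : ℝ) = (1 / 2) ^ 2 by norm_num, Real.sqrt_sq (by norm_num)]

theorem sqrt_b : Real.sqrt (0 ^ 2 + (1 / 2) ^ 2) = 1 / 2 := by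
  rw [add_comm, sqrt_a]

theorem sqrt_c : Real.sqrt ((1 / 2) ^ 2 + (1 / 2) ^ 2) = dm := by
  unfold dm; norm_num

theorem energy_four (p : T2) {a b c d : ℝ} (ha : 0 ≤ a) (hb : 0 ≤ b) (hc : 0 ≤ c) (hd : 0 ≤ d)
    {α : ℝ} (hα : 0 < α) : energy α (four p a b c d) =
      2 * (a * b + a * c + b * d + c * d) * (1 / 2 : ℝ) ^ α + 2 * (a * d + b * c) * dm ^ α := by
  unfold energy
  simp only [integral_four p ha hb hc hd, rho_add, rho_add_left, rho_add_right, rho_self]
  simp only [rho, Prod.fst_zero, Prod.snd_zero, sub_zero, zero_sub, norm_neg, norm_half,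
    norm_zero, sub_self, sqrt_a, sqrt_b, sqrt_c, Real.zero_rpow hα.ne']
  ring

theorem energy_eta (p : T2) {α : ℝ} (hα : 0 < α) :
    energy α (eta p) = (2 * (1 / 2 : ℝ) ^ α + dm ^ α) / 4 := by
  rw [eta_eq, energy_four p (by norm_num) (by norm_num) (by norm_num) (by norm_num) hα]
  ring

theorem energy_nu (p : T2) {α : ℝ} (hα : 0 < α) : energy α (nu p) = dm ^ α / 2 := by
  rw [nu_eq, energy_four p (by norm_num) (by norm_num) (by norm_num) (by norm_num) hα]
  ring

instance prob_eta (p : T2) : IsProbabilityMeasure (eta p) := by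
  rw [eta_eq]
  exact prob_four p (by norm_num) (by norm_num) (by norm_num) (by norm_num) (by norm_num)

instance prob_nu (p : T2) : IsProbabilityMeasure (nu p) := by
  rw [nu_eq]
  exact prob_four p (by norm_num) (by norm_num) (by norm_num) (by norm_num) (by norm_num)

end Pool.Agent.MP_ae59d5_an
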