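import Mathlib.Topology.Sheaves.Presheaf
import Mathlib.MeasureTheory.Measure.Haar.Unique
import Mathlib.MeasureTheory.Measure.RegularityCompacts
import Mathlib.Topology.UniformSpace.Uniformizable
import Pool.Agent.MP_ae59d5_an.Small

/-!
The uniform measure is never a maximizer.
-/

set_option autoImplicit false

namespace Pool.Agent.MP_ae59d5_an

open MeasureTheory Metric Set

/-- The bilinear form of a convolution kernel on the circle. -/
noncomputable def bil (G : UnitAddCircle → ℝ) (μ ν : Measure UnitAddCircle) : ℝ :=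
  ∫ z : UnitAddCircle × UnitAddCircle, G (z.1 - z.2) ∂(μ.prod ν)

section
variable {G : UnitAddCircle → ℝ} (hG : Continuous G)
include hG

theorem bil_int (μ ν : Measure UnitAddCircle) [IsFiniteMeasure μ] [IsFiniteMeasure ν] :
    Integrable (fun z : UnitAddCircle × UnitAddCircle => G (z.1 - z.2)) (μ.prod ν) :=
  integrable_of_continuous _ (by fun_prop)

theorem bil_add_left (μ μ' ν : Measure UnitAddCircle) [IsFiniteMeasure μ] [IsFiniteMeasure μ']
    [IsFiniteMeasure ν] : bil G (μ + μ') ν = bil G μ ν + bil G μ' ν := by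
  unfold bil
  rw [Measure.add_prod, integral_add_measure (bil_int hG _ _) (bil_int hG _ _)]

theorem bil_add_right (μ ν ν' : Measure UnitAddCircle) [IsFiniteMeasure μ] [IsFiniteMeasure ν]
    [IsFiniteMeasure ν'] : bil G μ (ν + ν') = bil G μ ν + bil G μ ν' := by
  unfold bil
  rw [Measure.prod_add, integral_add_measure (bil_int hG _ _) (bil_int hG _ _)]

theorem bil_vol_right (μ : Measure UnitAddCircle) [IsFiniteMeasure μ] :
    bil G μ volume = μ.real univ * ∫ y, G y := by
  unfold bil
  rw [integral_prod _ (bil_int hG _ _)]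
  simp only [integral_sub_left_eq_self G volume, integral_const, smul_eq_mul]

theorem bil_vol_left (μ : Measure UnitAddCircle) [IsFiniteMeasure μ] :
    bil G volume μ = μ.real univ * ∫ y, G y := by
  unfold bil
  rw [integral_prod_symm _ (bil_int hG _ _)]
  simp only [integral_sub_right_eq_self G, integral_const, smul_eq_mul]

theorem bil_restrict_le (s t : Set UnitAddCircle) (hs : MeasurableSet s) (ht : MeasurableSet t)
    (C : ℝ) (h : ∀ x ∈ s, ∀ y ∈ t, G (x - y) ≤ C) :
    bil G (volume.restrict s) (volume.restrict t) ≤ C * (volume.real s * volume.real t) := by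
  unfold bil
  have h1 : ∀ᵐ z ∂((volume.restrict s).prod (volume.restrict t)), G (z.1 - z.2) ≤ C := by
    rw [Measure.prod_restrict]
    filter_upwards [ae_restrict_mem (hs.prod ht)] with z hz
    exact h _ hz.1 _ hz.2
  refine (integral_mono_ae (bil_int hG _ _) (integrable_const C) h1).trans (le_of_eq ?_)
  rw [integral_const, smul_eq_mul, mul_comm, ← univ_prod_univ, measureReal_prod_prod]
  simp

theorem le_bil_restrict (s t : Set UnitAddCircle) (hs : MeasurableSet s) (ht : MeasurableSet t)
    (C : ℝ) (h : ∀ x ∈ s, ∀ y ∈ t, C ≤ G (x - y)) :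
    C * (volume.real s * volume.real t) ≤ bil G (volume.restrict s) (volume.restrict t) := by
  have := bil_restrict_le hG.neg s t hs ht (-C) (fun x hx y hy => neg_le_neg (h x hx y hy))
  unfold bil at this ⊢
  simp only [Pi.neg_apply, integral_neg] at this
  linarith

theorem oneD (heven : ∀ x, G (-x) = G x) (v : UnitAddCircle) (hv : G v < G 0) :
    ∃ m : Measure UnitAddCircle, IsProbabilityMeasure m ∧ ∫ y, G y < bil G m m := by
  set δ := (G 0 - G v) / 3 with hδ
  have hδ0 : 0 < δ := by linarith
  obtain ⟨η1, h1, g1⟩ := Metric.continuousAt_iff.1 (hG.continuousAt (x := 0)) δ hδ0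
  obtain ⟨η2, h2, g2⟩ := Metric.continuousAt_iff.1 (hG.continuousAt (x := v)) δ hδ0
  set η := min (min η1 η2 / 2) (1 / 2) with hη
  have hη0 : 0 < η := lt_min (by positivity) (by norm_num)
  have hη1 : 2 * η ≤ η1 := by
    have := min_le_left (min η1 η2 / 2) (1 / 2)
    have := min_le_left η1 η2
    linarith
  have hη2 : 2 * η ≤ η2 := by
    have := min_le_left (min η1 η2 / 2) (1 / 2)
    have := min_le_right η1 η2
    linarith
  have hβ : ∀ x : UnitAddCircle, volume.real (ball x η) = 2 * η :=
    fun x => real_volume_ball x hη0.le (min_le_right _ _)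
  have hnear : ∀ (a b x y : UnitAddCircle), x ∈ ball a η → y ∈ ball b η →
      dist (x - y) (a - b) < 2 * η := by
    intro a b x y hx hy
    have := dist_sub_sub_le x y a b
    rw [mem_ball] at hx hy
    linarith
  set k0 : Measure UnitAddCircle := volume.restrict (ball 0 η) with hk0
  set k1 : Measure UnitAddCircle := volume.restrict (ball v η) with hk1
  set r : Measure UnitAddCircle := volume.restrict (ball v η)ᶜ with hr
  have hvol : (volume : Measure UnitAddCircle) = k1 + r :=
    (Measure.restrict_add_restrict_compl measurableSet_ball).symm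
  have m0 : k0.real univ = 2 * η := by simp [hk0, hβ]
  have m1 : k1.real univ = 2 * η := by simp [hk1, hβ]
  have mr : r.real univ = 1 - 2 * η := by
    have : (volume : Measure UnitAddCircle).real univ = k1.real univ + r.real univ := by
      rw [← measureReal_add_apply, ← hvol]
    rw [probReal_univ, m1] at this
    linarith
  refine ⟨k0 + r, ?_, ?_⟩
  · refine isProbabilityMeasure_iff_real.2 ?_
    rw [measureReal_add_apply, m0, mr]; ring
  have a1 := bil_vol_left hG k0
  have a2 := bil_vol_right hG k0
  have a3 := bil_vol_left hG k1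
  have a4 := bil_vol_right hG r
  nth_rewrite 1 [hvol] at a1 a2 a3 a4
  rw [bil_add_left hG, m0] at a1
  rw [bil_add_right hG, m0] at a2
  rw [bil_add_left hG, m1] at a3
  rw [bil_add_right hG, mr] at a4
  rw [bil_add_left hG, bil_add_right hG, bil_add_right hG]
  have same : ∀ a : UnitAddCircle, (G 0 - δ) * (2 * η * (2 * η)) ≤
      bil G (volume.restrict (ball a η)) (volume.restrict (ball a η)) := by
    intro a
    have := le_bil_restrict hG (ball a η) (ball a η) measurableSet_ball measurableSet_ball
      (G 0 - δ) (fun x hx y hy => by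
        have := hnear a a x y hx hy
        rw [sub_self] at this
        have := abs_lt.1 (g1 (lt_of_lt_of_le this hη1))
        linarith)
    rwa [hβ] at this
  have b1 := bil_restrict_le hG (ball v η) (ball 0 η) measurableSet_ball measurableSet_ball
      (G v + δ) (fun x hx y hy => by
        have := hnear _ _ x y hx hy
        rw [sub_zero] at this
        have := abs_lt.1 (g2 (lt_of_lt_of_le this hη2))
        linarith)
  have b2 := bil_restrict_le hG (ball 0 η) (ball v η) measurableSet_ball measurableSet_ball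
      (G v + δ) (fun x hx y hy => by
        have := hnear _ _ y x hy hx
        rw [sub_zero] at this
        have := abs_lt.1 (g2 (lt_of_lt_of_le this hη2))
        rw [← heven, neg_sub]
        linarith)
  rw [hβ, hβ] at b1 b2
  have c0 := same 0
  have c1 := same v
  have : 0 < δ * (2 * η * (2 * η)) := by positivity
  have e : G 0 * (2 * η * (2 * η)) - G v * (2 * η * (2 * η)) = 3 * (δ * (2 * η * (2 * η))) := by
    rw [hδ]; ring
  simp only [← hk0, ← hk1] at b1 b2 c0 c1
  nlinarith

end

theorem continuous_integral {X Y : Type} [TopologicalSpace X] [FirstCountableTopology X]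
    [LocallyCompactSpace X] [TopologicalSpace Y] [CompactSpace Y] [MeasurableSpace Y]
    [OpensMeasurableSpace Y] (m : Measure Y) [IsFiniteMeasure m] {f : X → Y → ℝ}
    (hf : Continuous f.uncurry) : Continuous (fun x => ∫ y, f x y ∂m) := by
  simpa using continuous_parametric_integral_of_continuous (μ := m) hf isCompact_univ

theorem oneD_sym {F : UnitAddCircle → ℝ} (hF : Continuous F) (heven : ∀ x, F (-x) = F x)
    (v : UnitAddCircle) (hv : F v + F (v + half) < F 0 + F half) :
    ∃ m : Measure UnitAddCircle, IsProbabilityMeasure m ∧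
      ∫ y, F y < ∫ x, ∫ y, F (x - y) ∂m ∂m := by
  have hG : Continuous (fun w => F w + F (w + half)) := by fun_prop
  obtain ⟨m, hm, hlt⟩ := oneD hG (fun x => by
    rw [heven, ← heven (-x + half), neg_add, neg_neg, neg_half]) v (by simpa using hv)
  have hmeas : Measurable (fun y : UnitAddCircle => y + half) := by fun_prop
  have : IsProbabilityMeasure (m.map (fun y => y + half)) :=
    Measure.isProbabilityMeasure_map hmeas.aemeasurable
  have hint : ∀ φ : UnitAddCircle → ℝ, Continuous φ →
      ∫ y, φ y ∂((1 / 2 : ENNReal) • (m + m.map (fun y => y + half))) =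
        ∫ y, (φ y + φ (y + half)) / 2 ∂m := by
    intro φ hφ
    rw [integral_smul_measure, integral_add_measure (integrable_of_continuous _ hφ)
      (integrable_of_continuous _ hφ), integral_map hmeas.aemeasurable hφ.aestronglyMeasurable,
      integral_div, integral_add (integrable_of_continuous _ hφ)
        (integrable_of_continuous _ (by fun_prop))]
    simp; ring
  refine ⟨(1 / 2 : ENNReal) • (m + m.map (fun y => y + half)), ?_, ?_⟩
  · constructor
    simp only [Measure.coe_smul, Measure.coe_add, Pi.smul_apply, Pi.add_apply, measure_univ,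
      smul_eq_mul, one_div]
    rw [one_add_one_eq_two, ENNReal.inv_mul_cancel (by norm_num) (by norm_num)]
  have e1 : ∀ x, ∫ y, F (x - y) ∂((1 / 2 : ENNReal) • (m + m.map (fun y => y + half))) =
      ∫ y, (F (x - y) + F (x - y + half)) / 2 ∂m := by
    intro x
    rw [hint _ (by fun_prop)]
    congr 1
    ext y
    rw [← sub_sub, sub_eq_add_neg (x - y), neg_half]
  simp only [e1]
  rw [hint _ (continuous_integral m (by fun_prop))]
  have e2 : ∀ x, ∫ y, (F (x + half - y) + F (x + half - y + half)) / 2 ∂m =
      ∫ y, (F (x - y) + F (x - y + half)) / 2 ∂m := by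
    intro x
    congr 1
    ext y
    rw [add_sub_right_comm, add_assoc, half_add_half, add_zero, add_comm]
  simp only [e2, add_self_div_two]
  unfold bil at hlt
  rw [integral_prod _ (bil_int hG _ _), integral_add (integrable_of_continuous _ hF)
    (integrable_of_continuous _ (by fun_prop)), integral_add_right_eq_self] at hlt
  simp only [integral_div]
  linarith

/-- The vertical average of the kernel. -/
noncomputable def vert (α s : ℝ) : ℝ := ∫ y : UnitAddCircle, Real.sqrt (s ^ 2 + ‖y‖ ^ 2) ^ α

theorem continuous_vert {α : ℝ} (hα : 0 < α) : Continuous (vert α) :=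
  continuous_integral volume
    (Continuous.rpow_const (by fun_prop) (fun _ => Or.inr hα.le))

theorem energy_prod {α : ℝ} (hα : 0 < α) (m : Measure UnitAddCircle) [IsProbabilityMeasure m] :
    energy α (m.prod volume) = ∫ x, ∫ y, vert α ‖x - y‖ ∂m ∂m := by
  unfold energy
  have e : ∀ z : T2, ∫ w, rho z w ^ α ∂(m.prod volume) = ∫ y, vert α ‖z.1 - y‖ ∂m := by
    intro z
    have hc : Continuous (fun w : T2 => rho z w ^ α) :=
      Continuous.rpow_const (by unfold rho; fun_prop) (fun _ => Or.inr hα.le)
    rw [integral_prod _ (integrable_of_continuous _ hc)]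
    congr 1
    ext y
    exact integral_sub_left_eq_self
      (fun w : UnitAddCircle => Real.sqrt (‖z.1 - y‖ ^ 2 + ‖w‖ ^ 2) ^ α) volume z.2
  simp only [e]
  rw [integral_fun_fst (fun x => ∫ y, vert α ‖x - y‖ ∂m)]
  simp

theorem vert_lower {α ε : ℝ} (h0 : 0 < α) (h1 : α ≤ 1) (e0 : 0 < ε) (e1 : ε ≤ 1 / 2) :
    α * ε / 4 ≤ vert α (1 / 2) - vert α (1 / 2 - ε) := by
  have i : ∀ s : ℝ, Integrable (fun y : UnitAddCircle => Real.sqrt (s ^ 2 + ‖y‖ ^ 2) ^ α) volume :=
    fun s => integrable_of_continuous _
      (Continuous.rpow_const (by fun_prop) (fun _ => Or.inr h0.le))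
  unfold vert
  rw [← integral_sub (i _) (i _)]
  refine le_trans (by simp) (integral_mono (integrable_const (α * ε / 4)) ((i _).sub (i _)) ?_)
  intro y
  have t0 := norm_nonneg y
  have t1 := norm_le_half y
  set t := ‖y‖
  set a := Real.sqrt ((1 / 2) ^ 2 + t ^ 2) with ha
  set b := Real.sqrt ((1 / 2 - ε) ^ 2 + t ^ 2) with hb
  have a2 : a ^ 2 = (1 / 2) ^ 2 + t ^ 2 := Real.sq_sqrt (by positivity)
  have b2 : b ^ 2 = (1 / 2 - ε) ^ 2 + t ^ 2 := Real.sq_sqrt (by positivity)
  have a0 : 0 < a := Real.sqrt_pos.2 (by positivity)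
  have b0 : 0 ≤ b := Real.sqrt_nonneg _
  have ab : b ≤ a := Real.sqrt_le_sqrt (by nlinarith)
  have a1 : a ≤ 1 := by nlinarith
  have h := le_rpow_sub h0 h1 b0 ab a0 a1
  have h2 : ε / 4 ≤ a - b := by nlinarith
  have h3 := mul_le_mul_of_nonneg_left h2 h0.le
  show α * ε / 4 ≤ a ^ α - b ^ α
  linarith

theorem vert_upper {α ε δ : ℝ} (h0 : 0 < α) (h1 : α ≤ 1) (e0 : 0 < ε) (e1 : ε ≤ δ)
    (d1 : δ ≤ 1 / 2) : vert α ε - vert α 0 ≤ 2 * (ε * (2 * δ) ^ α) + ε ^ 2 / δ ^ 2 := by
  have d0 : 0 < δ := by linarith
  have i : ∀ s : ℝ, Integrable (fun y : UnitAddCircle => Real.sqrt (s ^ 2 + ‖y‖ ^ 2) ^ α) volume :=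
    fun s => integrable_of_continuous _
      (Continuous.rpow_const (by fun_prop) (fun _ => Or.inr h0.le))
  set D : ℝ → ℝ := fun y => Real.sqrt (ε ^ 2 + |y| ^ 2) ^ α - Real.sqrt (0 ^ 2 + |y| ^ 2) ^ α
    with hD
  have cD : Continuous D :=
    (Continuous.rpow_const (by fun_prop) (fun _ => Or.inr h0.le)).sub
      (Continuous.rpow_const (by fun_prop) (fun _ => Or.inr h0.le))
  have cp : Continuous (fun y : ℝ => y ^ α) := continuous_id.rpow_const (fun _ => Or.inr h0.le)
  have e : vert α ε - vert α 0 = ∫ y in (-(1 / 2) : ℝ)..(1 / 2), D y := by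
    unfold vert
    rw [← integral_sub (i _) (i _), ← UnitAddCircle.intervalIntegral_preimage (-(1 / 2)),
      show (-(1 / 2) + 1 : ℝ) = 1 / 2 by norm_num]
    refine intervalIntegral.integral_congr (fun y hy => ?_)
    rw [uIcc_of_le (by norm_num)] at hy
    simp only [hD, norm_coe_of_le (abs_le.2 hy)]
  have e2 : ∫ y in (-(1 / 2) : ℝ)..0, D y = ∫ y in (0 : ℝ)..(1 / 2), D y := by
    have := intervalIntegral.integral_comp_neg (a := 0) (b := 1 / 2) D
    rw [neg_zero] at this
    rw [← this]
    simp only [hD, abs_neg]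
  have b1 : ∫ y in (0 : ℝ)..δ, D y ≤ ε * (2 * δ) ^ α := by
    have s1 : ∫ y in (0 : ℝ)..δ, D y ≤ ∫ y in (0 : ℝ)..δ, ((y + ε) ^ α - y ^ α) := by
      refine intervalIntegral.integral_mono_on d0.le (cD.intervalIntegrable _ _)
        (Continuous.intervalIntegrable (by fun_prop (disch := exact fun _ => Or.inr h0.le)) _ _)
        (fun y hy => ?_)
      simp only [hD, abs_of_nonneg hy.1]
      rw [show (0 : ℝ) ^ 2 + y ^ 2 = y ^ 2 by ring, Real.sqrt_sq hy.1]
      refine sub_le_sub_right (Real.rpow_le_rpow (Real.sqrt_nonneg _) ?_ h0.le) _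
      have := hy.1
      exact Real.sqrt_le_iff.2 ⟨by linarith, by nlinarith⟩
    rw [intervalIntegral.integral_sub
      (Continuous.intervalIntegrable (by fun_prop (disch := exact fun _ => Or.inr h0.le)) _ _)
      (cp.intervalIntegrable _ _), intervalIntegral.integral_comp_add_right (fun y => y ^ α),
      intervalIntegral.integral_interval_sub_interval_comm' (cp.intervalIntegrable _ _)
        (cp.intervalIntegrable _ _) (cp.intervalIntegrable _ _)] at s1
    have s2 : 0 ≤ ∫ y in (0 : ℝ)..(0 + ε), y ^ α :=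
      intervalIntegral.integral_nonneg (by linarith) (fun y hy => Real.rpow_nonneg hy.1 _)
    have s3 : ∫ y in δ..(δ + ε), y ^ α ≤ ∫ _y in δ..(δ + ε), (2 * δ) ^ α := by
      refine intervalIntegral.integral_mono_on (by linarith) (cp.intervalIntegrable _ _)
        intervalIntegrable_const (fun y hy => ?_)
      exact Real.rpow_le_rpow (by linarith [hy.1]) (by linarith [hy.2]) h0.le
    rw [intervalIntegral.integral_const, smul_eq_mul, add_sub_cancel_left] at s3
    linarith
  have b2 : ∫ y in δ..(1 / 2), D y ≤ ε ^ 2 / δ ^ 2 / 2 := by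
    have s3 : ∫ y in δ..(1 / 2), D y ≤ ∫ _y in δ..(1 / 2), ε ^ 2 / δ ^ 2 := by
      refine intervalIntegral.integral_mono_on d1 (cD.intervalIntegrable _ _)
        intervalIntegrable_const (fun y hy => ?_)
      have y0 : 0 < y := by linarith [hy.1]
      have y1 := hy.1
      have y2 := hy.2
      simp only [hD, abs_of_pos y0]
      rw [show (0 : ℝ) ^ 2 + y ^ 2 = y ^ 2 by ring, Real.sqrt_sq y0.le]
      set r := Real.sqrt (ε ^ 2 + y ^ 2) with hr
      have r2 : r ^ 2 = ε ^ 2 + y ^ 2 := Real.sq_sqrt (by positivity)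
      have ry : y ≤ r := Real.le_sqrt_of_sq_le (by nlinarith)
      have r1 : r ≤ 1 := by nlinarith
      refine (rpow_sub_le h0 h1 y0.le ry (by linarith) r1).trans ?_
      rw [div_le_div_iff₀ (by linarith) (by positivity)]
      have q1 : δ ^ 2 ≤ (r + y) * r := by nlinarith
      have q2 : (r - y) * δ ^ 2 ≤ (r - y) * ((r + y) * r) :=
        mul_le_mul_of_nonneg_left q1 (by linarith)
      have q3 : (r - y) * ((r + y) * r) = ε ^ 2 * r := by
        have : (r - y) * (r + y) = ε ^ 2 := by linarith
        rw [← mul_assoc, this]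
      linarith
    rw [intervalIntegral.integral_const, smul_eq_mul] at s3
    have : 0 ≤ ε ^ 2 / δ ^ 2 := by positivity
    nlinarith
  rw [e, ← intervalIntegral.integral_add_adjacent_intervals (b := 0) (cD.intervalIntegrable _ _)
    (cD.intervalIntegrable _ _), e2,
    ← intervalIntegral.integral_add_adjacent_intervals (b := δ) (cD.intervalIntegrable _ _)
    (cD.intervalIntegrable _ _)]
  linarith

theorem vert_gap {α : ℝ} (h0 : 0 < α) (h1 : α ≤ 1) : ∃ ε : ℝ, 0 < ε ∧ ε ≤ 1 / 2 ∧
    vert α ε + vert α (1 / 2 - ε) < vert α 0 + vert α (1 / 2) := by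
  set δ : ℝ := (α / 32) ^ α⁻¹ / 2 with hδ
  have q0 : 0 < (α / 32) ^ α⁻¹ := Real.rpow_pos_of_pos (by positivity) _
  have q1 : (α / 32) ^ α⁻¹ ≤ 1 := Real.rpow_le_one (by positivity) (by linarith) (by positivity)
  have d0 : 0 < δ := by positivity
  have d1 : δ ≤ 1 / 2 := by linarith
  have d2 : (2 * δ) ^ α = α / 32 := by
    rw [hδ, mul_div_cancel₀ _ (two_ne_zero), Real.rpow_inv_rpow (by positivity) h0.ne']
  set ε := min δ (α * δ ^ 2 / 16) with hε
  have e0 : 0 < ε := lt_min d0 (by positivity)
  have e1 : ε ≤ δ := min_le_left _ _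
  have e2 : ε ≤ α * δ ^ 2 / 16 := min_le_right _ _
  have a := vert_lower h0 h1 e0 (by linarith)
  have b := vert_upper h0 h1 e0 e1 d1
  have c : ε ^ 2 / δ ^ 2 ≤ α * ε / 16 := by
    rw [div_le_iff₀ (by positivity)]
    nlinarith
  rw [d2] at b
  have : 0 < α * ε := by positivity
  exact ⟨ε, e0, by linarith, by linarith⟩

instance : NullSingletonClass (volume : Measure UnitAddCircle) := by
  constructor
  intro x
  rw [← Metric.closedBall_zero, AddCircle.volume_closedBall]
  simp

instance : NullSingletonClass (volume : Measure T2) := by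
  rw [Measure.volume_eq_prod]
  infer_instance

theorem vol_ne_four (p : T2) {a b c d : ℝ} (ha : 0 ≤ a) (hb : 0 ≤ b) (hc : 0 ≤ c) (hd : 0 ≤ d)
    (h : a + b + c + d = 1) : (volume : Measure T2) ≠ four p a b c d := by
  intro he
  set S : Set T2 := {p, p + (half, 0), p + (0, half), p + (half, half)} with hS
  have h1 := integral_four p ha hb hc hd (S.indicator (fun _ => 1))
  rw [← he, integral_indicator_const _ (Set.toFinite S).measurableSet, Measure.real,
    (Set.toFinite S).measure_zero] at h1
  simp [hS] at h1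
  linarith

theorem vol_not_max {α : ℝ} (h0 : 0 < α) : ¬ IsMaximizer α (volume : Measure T2) := by
  intro hmax
  rcases le_or_gt α 1 with h1 | h1
  · obtain ⟨ε, e0, e1, e2⟩ := vert_gap h0 h1
    have hn : ‖(ε : UnitAddCircle)‖ = ε := by
      rw [norm_coe_of_le (by rwa [abs_of_pos e0]), abs_of_pos e0]
    obtain ⟨m, hm, hlt⟩ := oneD_sym (F := fun x => vert α ‖x‖)
      ((continuous_vert h0).comp continuous_norm) (fun x => by simp) (ε : UnitAddCircle)
      (by simpa only [norm_add_half, hn, norm_zero, norm_half] using e2)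
    have h2 := hmax.2 (m.prod volume) inferInstance
    rw [Measure.volume_eq_prod, energy_prod h0, energy_prod h0] at h2
    simp only [integral_sub_left_eq_self (fun x : UnitAddCircle => vert α ‖x‖) volume,
      integral_const, probReal_univ, smul_eq_mul, one_mul] at h2
    linarith
  · rcases lt_trichotomy α 2 with h2 | h2 | h2
    · obtain ⟨p, hp⟩ := (classify_lt_two h1.le h2 _).1 hmax
      rw [eta_eq] at hp
      exact vol_ne_four p (by norm_num) (by norm_num) (by norm_num) (by norm_num) (by norm_num) hp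
    · subst h2
      obtain ⟨p, t, t0, t1, hp⟩ := (classify_two _).1 hmax
      rw [mix_eq p t0 t1] at hp
      exact vol_ne_four p (by linarith) (by linarith) (by linarith) (by linarith) (by ring) hp
    · obtain ⟨p, hp⟩ := (classify_gt_two h2 _).1 hmax
      rw [nu_eq] at hp
      exact vol_ne_four p (by norm_num) (by norm_num) (by norm_num) (by norm_num) (by norm_num) hp

end Pool.Agent.MP_ae59d5_an
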